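import Mathlib

set_option autoImplicit false

/-!
# The union of a 3-critical and an l-critical graph

For every `l ≥ 4` the union of a 3-critical graph and an `l`-critical graph has chromatic number
at most `2 * (l - 1)`.
-/

namespace Pool.Agent.Results.MP_b82347_co.OddCycle

open SimpleGraph

/-- A graph `G` with vertex set `G.verts` (a subgraph of the complete graph on `V`) is `k`-critical if its
chromatic number is `k` and every proper subgraph has smaller chromatic number. -/
def IsCritical {V : Type} (k : ℕ) (G : (⊤ : SimpleGraph V).Subgraph) : Prop :=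
  G.coe.chromaticNumber = k ∧
    ∀ H : (⊤ : SimpleGraph V).Subgraph, H < G → H.coe.chromaticNumber < k

/-- colouring of a subgraph by a function on the ambient type -/
theorem colorable_of_fun {V : Type} (G : (⊤ : SimpleGraph V).Subgraph) (m : ℕ) (φ : V → Fin m)
    (h : ∀ a b, G.Adj a b → φ a ≠ φ b) : G.coe.Colorable m :=
  ⟨SimpleGraph.Coloring.mk (fun v => φ v.1) (by
    intro a b hab
    exact h _ _ hab)⟩

theorem fun_of_colorable {V : Type} (G : (⊤ : SimpleGraph V).Subgraph) (m : ℕ) (hm : 0 < m)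
    (h : G.coe.Colorable m) : ∃ φ : V → Fin m, ∀ a b, G.Adj a b → φ a ≠ φ b := by
  classical
  obtain ⟨c⟩ := h
  refine ⟨fun v => if hv : v ∈ G.verts then c ⟨v, hv⟩ else ⟨0, hm⟩, ?_⟩
  intro a b hab
  have ha := G.edge_vert hab
  have hb := G.edge_vert hab.symm
  simp only [ha, hb, dif_pos]
  exact c.valid (show G.coe.Adj ⟨a, ha⟩ ⟨b, hb⟩ from hab)

theorem colorable_of_lt {V : Type} [Finite V] (G : (⊤ : SimpleGraph V).Subgraph) (k : ℕ)
    (h : G.coe.chromaticNumber < ((k + 1 : ℕ) : ℕ∞)) : G.coe.Colorable k := by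
  have h1 : G.coe.chromaticNumber ≤ (k : ℕ∞) := by
    have : ((k + 1 : ℕ) : ℕ∞) = (k : ℕ∞) + 1 := by push_cast; rfl
    rw [this] at h
    exact Order.le_of_lt_add_one h
  exact SimpleGraph.chromaticNumber_le_iff_colorable.1 h1

/-- In a critical graph, deleting an edge leaves a `(k-1)`-colourable graph; as a function. -/
theorem exists_col {V : Type} [Finite V] {k : ℕ} (hk : 0 < k) (G : (⊤ : SimpleGraph V).Subgraph)
    (hG : IsCritical (k + 1) G) (x y : V) (hxy : G.Adj x y) :
    ∃ φ : V → Fin k, ∀ a b, G.Adj a b → s(a, b) ≠ s(x, y) → φ a ≠ φ b := by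
  have hlt : G.deleteEdges {s(x, y)} < G := by
    refine lt_of_le_of_ne (G.deleteEdges_le _) ?_
    intro h
    have h2 : (G.deleteEdges {s(x, y)}).Adj x y := by rw [h]; exact hxy
    rw [Subgraph.deleteEdges_adj] at h2
    exact h2.2 rfl
  obtain ⟨φ, hφ⟩ := fun_of_colorable _ k hk (colorable_of_lt _ k (hG.2 _ hlt))
  refine ⟨φ, fun a b hab hne => hφ a b ?_⟩
  rw [Subgraph.deleteEdges_adj]
  exact ⟨hab, hne⟩

theorem not_col {V : Type} [Finite V] {k : ℕ} (G : (⊤ : SimpleGraph V).Subgraph)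
    (hG : IsCritical (k + 1) G) : ¬ ∃ φ : V → Fin k, ∀ a b, G.Adj a b → φ a ≠ φ b := by
  rintro ⟨φ, hφ⟩
  have h := (colorable_of_fun G k φ hφ).chromaticNumber_le
  rw [hG.1] at h
  have h2 : k + 1 ≤ k := by exact_mod_cast h
  omega

/-- a non-2-colourable graph has an odd closed walk, given as a function -/
theorem exists_odd_closed {V : Type} (A : SimpleGraph V) (h : ¬ A.Colorable 2) :
    ∃ n : ℕ, Odd n ∧ ∃ c : ℕ → V, (∀ i, i < n → A.Adj (c i) (c (i + 1))) ∧ c n = c 0 := by
  rw [two_colorable_iff_forall_loop_even] at h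
  push Not at h
  obtain ⟨u, w, hw⟩ := h
  refine ⟨w.length, Nat.not_even_iff_odd.1 hw, w.getVert, ?_, ?_⟩
  · intro i hi
    exact w.adj_getVert_succ hi
  · rw [w.getVert_length, w.getVert_zero]

/-- a minimal odd closed walk, extended periodically -/
theorem exists_odd_cycle {V : Type} (A : SimpleGraph V) (h : ¬ A.Colorable 2) :
    ∃ n : ℕ, Odd n ∧ ∃ c : ℕ → V, (∀ i, A.Adj (c i) (c (i + 1))) ∧
      (∀ i j, c i = c j ↔ i % n = j % n) := by
  classical
  have hex := exists_odd_closed A h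
  let n := Nat.find hex
  obtain ⟨hodd, c, hadj, hcl⟩ := Nat.find_spec hex
  have hmin : ∀ m, m < n → ¬ (Odd m ∧ ∃ c : ℕ → V, (∀ i, i < m → A.Adj (c i) (c (i + 1))) ∧ c m = c 0) :=
    fun m hm => Nat.find_min hex hm
  have hn0 : 0 < n := hodd.pos
  -- injectivity
  have hinj : ∀ i j, i < j → j < n → c i ≠ c j := by
    intro i j hij hj heq
    by_cases hd : Odd (j - i)
    · refine hmin (j - i) (by omega) ⟨hd, fun k => c (i + k), ?_, ?_⟩
      · intro k hk
        have := hadj (i + k) (by omega)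
        simpa [add_assoc] using this
      · show c (i + (j - i)) = c (i + 0)
        have e1 : i + (j - i) = j := by omega
        rw [e1, add_zero]; exact heq.symm
    · have hev : Even (j - i) := Nat.not_odd_iff_even.1 hd
      have hodd2 : Odd (n - (j - i)) := by
        rcases hodd with ⟨a, ha⟩
        rcases hev with ⟨b, hb⟩
        have ha' : n = 2 * a + 1 := ha
        exact ⟨a - b, by omega⟩
      refine hmin (n - (j - i)) (by omega) ⟨hodd2, fun k => if k ≤ i then c k else c (k + (j - i)), ?_, ?_⟩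
      · intro k hk
        by_cases h1 : k + 1 ≤ i
        · have h2 : k ≤ i := by omega
          simp only [h1, h2, if_true]
          exact hadj k (by omega)
        · by_cases h2 : k ≤ i
          · have h3 : k = i := by omega
            subst h3
            simp only [le_refl, if_true, h1, if_false]
            rw [heq]
            have e1 : k + 1 + (j - k) = j + 1 := by omega
            rw [e1]
            exact hadj j (by omega)
          · simp only [h1, h2, if_false]
            have e1 : k + 1 + (j - i) = (k + (j - i)) + 1 := by omega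
            rw [e1]
            exact hadj _ (by omega)
      · have h1 : ¬ (n - (j - i) ≤ i) := by omega
        simp only [h1, if_false, Nat.zero_le, if_true]
        have e1 : n - (j - i) + (j - i) = n := by omega
        rw [e1]; exact hcl
  refine ⟨n, hodd, fun i => c (i % n), ?_, ?_⟩
  · intro i
    have hi : i % n < n := Nat.mod_lt _ hn0
    have h1 := hadj (i % n) hi
    by_cases h2 : i % n + 1 < n
    · have e : (i + 1) % n = i % n + 1 := by
        rw [Nat.add_mod]
        by_cases hn1 : n = 1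
        · omega
        · have : 1 % n = 1 := Nat.mod_eq_of_lt (by omega)
          rw [this]; exact Nat.mod_eq_of_lt h2
      show A.Adj (c (i % n)) (c ((i + 1) % n))
      rw [e]; exact h1
    · have h3 : i % n + 1 = n := by omega
      have e : (i + 1) % n = 0 := by
        have h4 : i + 1 = n * (i / n) + n := by
          have := Nat.div_add_mod i n
          omega
        rw [h4]
        simp
      show A.Adj (c (i % n)) (c ((i + 1) % n))
      rw [e, ← hcl]
      rw [h3] at h1
      exact h1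
  · intro i j
    constructor
    · intro hij
      by_contra hne
      rcases Nat.lt_or_gt_of_ne hne with hlt | hlt
      · exact hinj _ _ hlt (Nat.mod_lt _ hn0) hij
      · exact hinj _ _ hlt (Nat.mod_lt _ hn0) hij.symm
    · intro hij
      show c (i % n) = c (j % n)
      rw [hij]

/-- 3-critical graphs are odd cycles -/
theorem exists_cycle {V : Type} [Finite V] (G : (⊤ : SimpleGraph V).Subgraph)
    (hG : IsCritical 3 G) :
    ∃ n : ℕ, Odd n ∧ ∃ c : ℕ → V, (∀ i, G.Adj (c i) (c (i + 1))) ∧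
      (∀ i j, c i = c j ↔ i % n = j % n) ∧
      (∀ x, x ∈ G.verts → ∃ i, c i = x) ∧
      (∀ a b, G.Adj a b → ∃ i, (a = c i ∧ b = c (i + 1)) ∨ (b = c i ∧ a = c (i + 1))) := by
  classical
  have h1 : ¬ G.spanningCoe.Colorable 2 := by
    rintro ⟨κ⟩
    exact not_col G hG ⟨fun v => κ v, fun a b hab => κ.valid (show G.spanningCoe.Adj a b from hab)⟩
  obtain ⟨n, hodd, c, hadj, hc⟩ := exists_odd_cycle G.spanningCoe h1
  have hn0 : 0 < n := hodd.pos
  let G' : (⊤ : SimpleGraph V).Subgraph :=
    { verts := Set.range c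
      Adj := fun a b => ∃ i, (a = c i ∧ b = c (i + 1)) ∨ (b = c i ∧ a = c (i + 1))
      adj_sub := by
        rintro a b ⟨i, ⟨rfl, rfl⟩ | ⟨rfl, rfl⟩⟩
        · exact (hadj i).ne
        · exact (hadj i).ne'
      edge_vert := by
        rintro a b ⟨i, ⟨rfl, rfl⟩ | ⟨rfl, rfl⟩⟩
        · exact ⟨i, rfl⟩
        · exact ⟨i + 1, rfl⟩
      symm := by
        constructor
        rintro a b ⟨i, h | h⟩
        · exact ⟨i, Or.inr h⟩
        · exact ⟨i, Or.inl h⟩ }
  have hle : G' ≤ G := by
    constructor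
    · rintro x ⟨i, rfl⟩
      exact G.edge_vert (hadj i)
    · rintro a b ⟨i, ⟨rfl, rfl⟩ | ⟨rfl, rfl⟩⟩
      · exact hadj i
      · exact (hadj i).symm
  have heq : G' = G := by
    by_contra hne
    have hlt : G' < G := lt_of_le_of_ne hle hne
    obtain ⟨κ, hκ⟩ := fun_of_colorable _ 2 (by norm_num) (colorable_of_lt G' 2 (hG.2 _ hlt))
    have hstep : ∀ i, κ (c (i + 1)) ≠ κ (c i) := by
      intro i
      exact (hκ _ _ (show G'.Adj (c i) (c (i + 1)) from ⟨i, Or.inl ⟨rfl, rfl⟩⟩)).symm
    have hpar : ∀ i : ℕ, (κ (c i)).val % 2 = ((κ (c 0)).val + i) % 2 := by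
      intro i
      induction i with
      | zero => simp
      | succ i ih =>
        have h2 := hstep i
        have h3 : (κ (c (i + 1))).val ≠ (κ (c i)).val := fun h => h2 (Fin.ext h)
        have h4 := (κ (c (i + 1))).isLt
        have h5 := (κ (c i)).isLt
        omega
    have h6 := hpar n
    have h7 : c n = c 0 := (hc n 0).2 (by simp)
    rw [h7] at h6
    obtain ⟨a, ha⟩ := hodd
    omega
  refine ⟨n, hodd, c, hadj, hc, ?_, ?_⟩
  · intro x hx
    rw [← heq] at hx
    exact hx
  · intro a b hab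
    rw [← heq] at hab
    exact hab

/-- combining two partial colourings -/
theorem colorable_of_pair {V : Type} (G₁ G₂ : (⊤ : SimpleGraph V).Subgraph) (m : ℕ)
    (φ : V → Fin m) (σ : V → Fin 2)
    (h1 : ∀ a b, G₁.Adj a b → φ a ≠ φ b ∨ σ a ≠ σ b)
    (h2 : ∀ a b, G₂.Adj a b → φ a ≠ φ b ∨ σ a ≠ σ b) : (G₁ ⊔ G₂).coe.Colorable (2 * m) := by
  refine colorable_of_fun _ _ (fun v => finProdFinEquiv (σ v, φ v)) ?_
  intro a b hab heq
  have h3 := finProdFinEquiv.injective heq
  have h4 : σ a = σ b := congrArg Prod.fst h3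
  have h5 : φ a = φ b := congrArg Prod.snd h3
  rw [Subgraph.sup_adj] at hab
  rcases hab with hab | hab
  · rcases h1 a b hab with h | h
    · exact h h5
    · exact h h4
  · rcases h2 a b hab with h | h
    · exact h h5
    · exact h h4

/-- every vertex on an edge of an `(m+1)`-critical graph with `m ≥ 3` has at least three neighbours -/
theorem three_neighbours {V : Type} [Finite V] {m : ℕ} (hm : 3 ≤ m) (G : (⊤ : SimpleGraph V).Subgraph)
    (hG : IsCritical (m + 1) G) (x y : V) (hxy : G.Adj x y) :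
    ∃ z₁ z₂, G.Adj x z₁ ∧ G.Adj x z₂ ∧ y ≠ z₁ ∧ y ≠ z₂ ∧ z₁ ≠ z₂ := by
  classical
  obtain ⟨φ, hφ⟩ := exists_col (by omega) G hG x y hxy
  have hxyc : φ x = φ y := by
    by_contra hne
    apply not_col G hG
    refine ⟨φ, fun a b hab => ?_⟩
    by_cases he : s(a, b) = s(x, y)
    · rw [Sym2.eq_iff] at he
      rcases he with ⟨rfl, rfl⟩ | ⟨rfl, rfl⟩
      · exact hne
      · exact fun h => hne h.symm
    · exact hφ a b hab he
  have key : ∀ c : Fin m, c ≠ φ x → ∃ z, G.Adj x z ∧ φ z = c := by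
    intro c hc
    by_contra hno
    push Not at hno
    apply not_col G hG
    refine ⟨Function.update φ x c, fun a b hab => ?_⟩
    have hne : a ≠ b := hab.ne
    by_cases ha : a = x
    · subst ha
      have hb : b ≠ a := fun h => hne h.symm
      rw [Function.update_self, Function.update_of_ne hb]
      exact fun h => hno b hab h.symm
    · by_cases hb : b = x
      · subst hb
        rw [Function.update_self, Function.update_of_ne ha]
        exact hno a hab.symm
      · rw [Function.update_of_ne ha, Function.update_of_ne hb]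
        refine hφ a b hab ?_
        intro he
        rw [Sym2.eq_iff] at he
        rcases he with ⟨h, _⟩ | ⟨_, h⟩
        · exact ha h
        · exact hb h
  have hcard : ∃ c₁ c₂ : Fin m, c₁ ≠ φ x ∧ c₂ ≠ φ x ∧ c₁ ≠ c₂ := by
    have h0 : (0 : ℕ) < m := by omega
    have h1 : (1 : ℕ) < m := by omega
    have h2 : (2 : ℕ) < m := by omega
    by_cases e0 : φ x = ⟨0, h0⟩
    · refine ⟨⟨1, h1⟩, ⟨2, h2⟩, ?_, ?_, ?_⟩ <;> simp [e0, Fin.ext_iff]
    · by_cases e1 : φ x = ⟨1, h1⟩
      · refine ⟨⟨0, h0⟩, ⟨2, h2⟩, ?_, ?_, ?_⟩ <;> simp [e1, Fin.ext_iff]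
      · refine ⟨⟨0, h0⟩, ⟨1, h1⟩, fun h => e0 h.symm, fun h => e1 h.symm, ?_⟩
        simp [Fin.ext_iff]
  obtain ⟨c₁, c₂, hc1, hc2, hc12⟩ := hcard
  obtain ⟨z₁, hz1, hz1c⟩ := key c₁ hc1
  obtain ⟨z₂, hz2, hz2c⟩ := key c₂ hc2
  refine ⟨z₁, z₂, hz1, hz2, ?_, ?_, ?_⟩
  · rintro rfl
    exact hc1 (by rw [← hz1c, hxyc])
  · rintro rfl
    exact hc2 (by rw [← hz2c, hxyc])
  · rintro rfl
    exact hc12 (by rw [← hz1c, ← hz2c])

theorem exists_edge {V : Type} [Finite V] {m : ℕ} (hm : 0 < m) (G : (⊤ : SimpleGraph V).Subgraph)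
    (hG : IsCritical (m + 1) G) : ∃ x y, G.Adj x y := by
  by_contra h
  push Not at h
  exact not_col G hG ⟨fun _ => ⟨0, hm⟩, fun a b hab => absurd hab (h a b)⟩

/-- every vertex of a critical graph lies on an edge -/
theorem exists_nbr {V : Type} [Finite V] {m : ℕ} (hm : 0 < m) (G : (⊤ : SimpleGraph V).Subgraph)
    (hG : IsCritical (m + 1) G) (x : V) (hx : x ∈ G.verts) : ∃ y, G.Adj x y := by
  classical
  by_contra h
  push Not at h
  have hlt : G.deleteVerts {x} < G := by
    refine lt_of_le_of_ne Subgraph.deleteVerts_le ?_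
    intro he
    have h2 : x ∈ (G.deleteVerts {x}).verts := by rw [he]; exact hx
    simp at h2
  obtain ⟨φ, hφ⟩ := fun_of_colorable _ m hm (colorable_of_lt _ m (hG.2 _ hlt))
  apply not_col G hG
  refine ⟨φ, fun a b hab => hφ a b ?_⟩
  rw [Subgraph.deleteVerts_adj]
  refine ⟨G.edge_vert hab, ?_, G.edge_vert hab.symm, ?_, hab⟩
  · simp only [Set.mem_singleton_iff]
    rintro rfl
    exact h b hab
  · simp only [Set.mem_singleton_iff]
    rintro rfl
    exact h a hab.symm

/-- The case where some vertex `w` of the second graph is not in the first graph and the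
colouring is not constant along an edge of the first graph. -/
theorem case_outside {V : Type} [Finite V] {m : ℕ} (G₁ G₂ : (⊤ : SimpleGraph V).Subgraph)
    (h1 : IsCritical 3 G₁) (w y : V) (hw : w ∉ G₁.verts) (hwy : w ≠ y)
    (φ : V → Fin m) (hφ : ∀ a b, G₂.Adj a b → s(a, b) ≠ s(w, y) → φ a ≠ φ b)
    (u v : V) (huv : G₁.Adj u v) (hne : φ u ≠ φ v) : (G₁ ⊔ G₂).coe.Colorable (2 * m) := by
  classical
  obtain ⟨σ, hσ⟩ := exists_col (k := 2) (by norm_num) G₁ h1 u v huv
  obtain ⟨q, hq⟩ : ∃ q : Fin 2, q ≠ σ y := by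
    refine ⟨1 - σ y, ?_⟩
    have := σ y
    generalize σ y = r
    revert r
    decide
  refine colorable_of_pair G₁ G₂ m φ (Function.update σ w q) ?_ ?_
  · intro a b hab
    have ha : a ≠ w := by
      rintro rfl
      exact hw (G₁.edge_vert hab)
    have hb : b ≠ w := by
      rintro rfl
      exact hw (G₁.edge_vert hab.symm)
    rw [Function.update_of_ne ha, Function.update_of_ne hb]
    by_cases he : s(a, b) = s(u, v)
    · left
      rw [Sym2.eq_iff] at he
      rcases he with ⟨rfl, rfl⟩ | ⟨rfl, rfl⟩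
      · exact hne
      · exact fun h => hne h.symm
    · right
      exact hσ a b hab he
  · intro a b hab
    by_cases he : s(a, b) = s(w, y)
    · right
      rw [Sym2.eq_iff] at he
      rcases he with ⟨rfl, rfl⟩ | ⟨rfl, rfl⟩
      · rw [Function.update_self, Function.update_of_ne hwy.symm]
        exact hq
      · rw [Function.update_self, Function.update_of_ne hwy.symm]
        exact fun h => hq h.symm
    · left
      exact hφ a b hab he

/-- the case where the colouring is constant on the first graph -/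
theorem case_constant {V : Type} [Finite V] {m : ℕ} (hm : 3 ≤ m) (G₁ G₂ : (⊤ : SimpleGraph V).Subgraph)
    (h1 : IsCritical 3 G₁) (w y : V) (hw : w ∉ G₁.verts)
    (φ : V → Fin m) (hφ : ∀ a b, G₂.Adj a b → s(a, b) ≠ s(w, y) → φ a ≠ φ b)
    (hc : ∀ a b, a ∈ G₁.verts → b ∈ G₁.verts → φ a = φ b) : (G₁ ⊔ G₂).coe.Colorable (2 * m) := by
  classical
  have h3 : G₁.coe.Colorable 3 := by
    apply SimpleGraph.chromaticNumber_le_iff_colorable.1
    rw [h1.1]
  obtain ⟨γ, hγ⟩ := fun_of_colorable G₁ 3 (by norm_num) h3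
  let κ : V → ℕ := fun x => if x = w then m else if x ∈ G₁.verts then
    (if γ x = 0 then (φ x).val else m + (γ x).val) else (φ x).val
  have hκlt : ∀ x, κ x < 2 * m := by
    intro x
    have hx := (φ x).isLt
    have hx2 := (γ x).isLt
    simp only [κ]
    split_ifs <;> omega
  refine colorable_of_fun _ _ (fun v => ⟨κ v, hκlt v⟩) ?_
  intro a b hab heq
  have heq' : κ a = κ b := congrArg Fin.val heq
  rw [Subgraph.sup_adj] at hab
  rcases hab with hab | hab
  · have hav := G₁.edge_vert hab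
    have hbv := G₁.edge_vert hab.symm
    have ha : a ≠ w := by rintro rfl; exact hw hav
    have hb : b ≠ w := by rintro rfl; exact hw hbv
    simp only [κ, ha, hb, hav, hbv, if_true, if_false] at heq'
    have hne := hγ a b hab
    have ha3 := (φ a).isLt
    have hb3 := (φ b).isLt
    by_cases ga : γ a = 0
    · by_cases gb : γ b = 0
      · exact hne (by rw [ga, gb])
      · simp only [ga, gb, if_true, if_false] at heq'
        omega
    · by_cases gb : γ b = 0
      · simp only [ga, gb, if_true, if_false] at heq'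
        omega
      · simp only [ga, gb, if_false] at heq'
        exact hne (Fin.ext (by omega))
  · have hneab : a ≠ b := hab.ne
    have ha3 := (φ a).isLt
    have hb3 := (φ b).isLt
    by_cases ha : a = w
    · have hb : b ≠ w := fun h => hneab (ha.trans h.symm)
      simp only [κ, ha, hb, if_true, if_false] at heq'
      split_ifs at heq' with g1 g2
      · omega
      · have : (γ b).val ≠ 0 := fun h => g2 (Fin.ext h)
        omega
      · omega
    · by_cases hb : b = w
      · simp only [κ, ha, hb, if_true, if_false] at heq'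
        split_ifs at heq' with g1 g2
        · omega
        · have : (γ a).val ≠ 0 := fun h => g2 (Fin.ext h)
          omega
        · omega
      · have hne : φ a ≠ φ b := by
          refine hφ a b hab ?_
          intro he
          rw [Sym2.eq_iff] at he
          rcases he with ⟨h, _⟩ | ⟨_, h⟩
          · exact ha h
          · exact hb h
        have hnev : (φ a).val ≠ (φ b).val := fun h => hne (Fin.ext h)
        by_cases hav : a ∈ G₁.verts
        · by_cases hbv : b ∈ G₁.verts
          · exact hne (hc a b hav hbv)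
          · simp only [κ, ha, hb, hav, hbv, if_true, if_false] at heq'
            split_ifs at heq' <;> omega
        · by_cases hbv : b ∈ G₁.verts
          · simp only [κ, ha, hb, hav, hbv, if_true, if_false] at heq'
            split_ifs at heq' <;> omega
          · simp only [κ, ha, hb, hav, hbv, if_false] at heq'
            exact hnev heq'

/-- parity colouring of a cycle cut open at the edge `t, t+1` -/
theorem arc_colouring {V : Type} (n : ℕ) (hn : Odd n) (c : ℕ → V)
    (hc : ∀ i j, c i = c j ↔ i % n = j % n) (t : ℕ) (ht : t < n) :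
    ∃ σ : V → Fin 2, (∀ i, i % n ≠ t → σ (c i) ≠ σ (c (i + 1))) ∧
      (∀ j, j < n → (t < j ∧ Even j ∨ j ≤ t ∧ Odd j) → σ (c 0) ≠ σ (c j)) := by
  classical
  have hn0 : 0 < n := hn.pos
  let idx : V → ℕ := fun x => if h : ∃ i, i < n ∧ c i = x then Nat.find h else 0
  have hidx : ∀ i, idx (c i) = i % n := by
    intro i
    have hex : ∃ k, k < n ∧ c k = c i := ⟨i % n, Nat.mod_lt _ hn0, (hc _ _).2 (Nat.mod_mod _ _)⟩
    have h1 : idx (c i) = Nat.find hex := by
      simp only [idx, hex, dif_pos]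
    rw [h1]
    obtain ⟨hlt, heq⟩ := Nat.find_spec hex
    have h2 := (hc _ _).1 heq
    rw [Nat.mod_eq_of_lt hlt] at h2
    exact h2
  let p : ℕ → ℕ := fun r => if r ≤ t then r % 2 else (r + 1) % 2
  have hp : ∀ r, p r < 2 := by
    intro r
    simp only [p]
    split_ifs <;> exact Nat.mod_lt _ (by norm_num)
  refine ⟨fun x => ⟨p (idx x), hp _⟩, ?_, ?_⟩
  · intro i hi heq
    have h1 : p (idx (c i)) = p (idx (c (i + 1))) := congrArg Fin.val heq
    rw [hidx, hidx] at h1
    have hlt : i % n < n := Nat.mod_lt _ hn0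
    by_cases h2 : i % n + 1 < n
    · have e : (i + 1) % n = i % n + 1 := by
        rw [Nat.add_mod]
        have : 1 % n = 1 := Nat.mod_eq_of_lt (by omega)
        rw [this]; exact Nat.mod_eq_of_lt h2
      rw [e] at h1
      simp only [p] at h1
      split_ifs at h1 <;> omega
    · have h3 : i % n + 1 = n := by omega
      have e : (i + 1) % n = 0 := by
        have h4 : i + 1 = n * (i / n) + n := by
          have := Nat.div_add_mod i n
          omega
        rw [h4]
        simp
      rw [e] at h1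
      simp only [p] at h1
      obtain ⟨a, ha⟩ := hn
      split_ifs at h1 <;> omega
  · intro j hj hcase heq
    have h1 : p (idx (c 0)) = p (idx (c j)) := congrArg Fin.val heq
    rw [hidx, hidx, Nat.zero_mod, Nat.mod_eq_of_lt hj] at h1
    simp only [p, Nat.zero_le, if_true] at h1
    rcases hcase with ⟨h2, a, ha⟩ | ⟨h2, a, ha⟩
    · split_ifs at h1 <;> omega
    · split_ifs at h1 <;> omega

/-- a change of value along a segment happens at some step -/
theorem exists_step {α : Type} [DecidableEq α] (g : ℕ → α) (a b : ℕ) (hab : a ≤ b) (h : g a ≠ g b) :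
    ∃ t, a ≤ t ∧ t < b ∧ g t ≠ g (t + 1) := by
  by_contra hno
  push Not at hno
  apply h
  have : ∀ k, a + k ≤ b → g a = g (a + k) := by
    intro k
    induction k with
    | zero => intro _; rfl
    | succ k ih =>
      intro hk
      rw [ih (by omega)]
      exact hno (a + k) (by omega) (by omega)
  have h2 := this (b - a) (by omega)
  have e : a + (b - a) = b := by omega
  rw [e] at h2
  exact h2

/-- The case where all vertices of the second graph are on the cycle. -/
theorem case_inside {V : Type} [Finite V] {m : ℕ} (hm : 3 ≤ m) (G₁ G₂ : (⊤ : SimpleGraph V).Subgraph)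
    (h1 : IsCritical 3 G₁) (h2 : IsCritical (m + 1) G₂) (hsub : G₂.verts ⊆ G₁.verts) :
    (G₁ ⊔ G₂).coe.Colorable (2 * m) := by
  classical
  obtain ⟨n, hodd, c₀, hadj₀, hc₀, hv₀, he₀⟩ := exists_cycle G₁ h1
  have hn0 : 0 < n := hodd.pos
  obtain ⟨u, y₁, hu1⟩ := exists_edge (by omega) G₂ h2
  obtain ⟨y₂, y₃, hu2, hu3, h12, h13, h23⟩ := three_neighbours hm G₂ h2 u y₁ hu1
  obtain ⟨i₀, hi₀⟩ := hv₀ u (hsub (G₂.edge_vert hu1))
  -- rotate
  obtain ⟨c, hc0, hadj, hc, hv, he⟩ : ∃ c : ℕ → V, c 0 = u ∧ (∀ i, G₁.Adj (c i) (c (i + 1))) ∧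
      (∀ i j, c i = c j ↔ i % n = j % n) ∧ (∀ x, x ∈ G₁.verts → ∃ i, c i = x) ∧
      (∀ a b, G₁.Adj a b → ∃ i, (a = c i ∧ b = c (i + 1)) ∨ (b = c i ∧ a = c (i + 1))) := by
    have hshift : ∀ j, ∃ i, c₀ (i₀ + i) = c₀ j ∧ c₀ (i₀ + i + 1) = c₀ (j + 1) := by
      intro j
      refine ⟨j + i₀ * (n - 1), ?_, ?_⟩
      · rw [hc₀]
        have e : i₀ + (j + i₀ * (n - 1)) = j + i₀ * n := by
          obtain ⟨k, rfl⟩ : ∃ k, n = k + 1 := ⟨n - 1, by omega⟩
          simp only [Nat.add_sub_cancel]
          ring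
        rw [e, Nat.add_mul_mod_self_right]
      · rw [hc₀]
        have e : i₀ + (j + i₀ * (n - 1)) + 1 = (j + 1) + i₀ * n := by
          obtain ⟨k, rfl⟩ : ∃ k, n = k + 1 := ⟨n - 1, by omega⟩
          simp only [Nat.add_sub_cancel]
          ring
        rw [e, Nat.add_mul_mod_self_right]
    refine ⟨fun k => c₀ (i₀ + k), hi₀, fun i => hadj₀ (i₀ + i), ?_, ?_, ?_⟩
    · intro i j
      rw [hc₀]
      constructor
      · intro h
        exact Nat.ModEq.add_left_cancel' i₀ h
      · intro h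
        exact Nat.ModEq.add_left i₀ h
    · intro x hx
      obtain ⟨j, hj⟩ := hv₀ x hx
      obtain ⟨i, hi, _⟩ := hshift j
      exact ⟨i, hi.trans hj⟩
    · intro a b hab
      obtain ⟨j, hj⟩ := he₀ a b hab
      obtain ⟨i, hi1, hi2⟩ := hshift j
      refine ⟨i, ?_⟩
      rcases hj with ⟨ha, hb⟩ | ⟨hb, ha⟩
      · exact Or.inl ⟨by rw [ha]; exact hi1.symm, by rw [hb]; exact hi2.symm⟩
      · exact Or.inr ⟨by rw [hb]; exact hi1.symm, by rw [ha]; exact hi2.symm⟩
  have hcn : c n = c 0 := (hc n 0).2 (by simp)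
  -- the product colouring
  have final : ∀ t j : ℕ, t < n → j < n → (t < j ∧ Even j ∨ j ≤ t ∧ Odd j) → G₂.Adj (c 0) (c j) →
      ∀ φ : V → Fin m, (∀ a b, G₂.Adj a b → s(a, b) ≠ s(c 0, c j) → φ a ≠ φ b) →
      φ (c t) ≠ φ (c (t + 1)) → (G₁ ⊔ G₂).coe.Colorable (2 * m) := by
    intro t j ht hj hcase _ φ hφ hne
    obtain ⟨σ, hσ1, hσ2⟩ := arc_colouring n hodd c hc t ht
    refine colorable_of_pair G₁ G₂ m φ σ ?_ ?_
    · intro a b hab
      obtain ⟨i, hi⟩ := he a b hab
      by_cases hit : i % n = t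
      · left
        have e1 : c i = c t := (hc _ _).2 (by rw [hit, Nat.mod_eq_of_lt ht])
        have e2 : c (i + 1) = c (t + 1) := by
          rw [hc]
          have : i ≡ t [MOD n] := by
            show i % n = t % n
            rw [hit, Nat.mod_eq_of_lt ht]
          exact this.add_right 1
        rcases hi with ⟨ha, hb⟩ | ⟨hb, ha⟩
        · rw [ha, hb, e1, e2]; exact hne
        · rw [ha, hb, e1, e2]; exact hne.symm
      · right
        rcases hi with ⟨ha, hb⟩ | ⟨hb, ha⟩
        · rw [ha, hb]; exact hσ1 i hit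
        · rw [ha, hb]; exact (hσ1 i hit).symm
    · intro a b hab
      by_cases heq : s(a, b) = s(c 0, c j)
      · right
        have h3 := hσ2 j hj hcase
        rw [Sym2.eq_iff] at heq
        rcases heq with ⟨ha, hb⟩ | ⟨ha, hb⟩
        · rw [ha, hb]; exact h3
        · rw [ha, hb]; exact h3.symm
      · left
        exact hφ a b hab heq
  -- two neighbours with indices of the same parity
  have two : ∀ i j : ℕ, i < j → j < n → G₂.Adj (c 0) (c i) → G₂.Adj (c 0) (c j) →
      (Even i ∧ Even j ∨ Odd i ∧ Odd j) → (G₁ ⊔ G₂).coe.Colorable (2 * m) := by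
    intro i j hij hj hai haj hpar
    have hcij : c i ≠ c j := by
      intro h
      have := (hc i j).1 h
      rw [Nat.mod_eq_of_lt hj, Nat.mod_eq_of_lt (by omega)] at this
      omega
    have h0i : c 0 ≠ c i := hai.ne
    have h0j : c 0 ≠ c j := haj.ne
    have hi0 : i ≠ 0 := by rintro rfl; exact h0i rfl
    rcases hpar with ⟨hei, hej⟩ | ⟨hoi, hoj⟩
    · obtain ⟨φ, hφ⟩ := exists_col (by omega) G₂ h2 (c 0) (c j) haj
      have hne : φ (c 0) ≠ φ (c i) := by
        refine hφ _ _ hai ?_
        intro h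
        rw [Sym2.eq_iff] at h
        rcases h with ⟨_, h⟩ | ⟨h, _⟩
        · exact hcij h
        · exact h0j h
      obtain ⟨t, _, ht2, ht3⟩ := exists_step (fun k => φ (c k)) 0 i (Nat.zero_le _) hne
      exact final t j (by omega) hj (Or.inl ⟨by omega, hej⟩) haj φ hφ ht3
    · obtain ⟨φ, hφ⟩ := exists_col (by omega) G₂ h2 (c 0) (c i) hai
      have hne : φ (c j) ≠ φ (c n) := by
        rw [hcn]
        refine (hφ _ _ haj ?_).symm
        intro h
        rw [Sym2.eq_iff] at h
        rcases h with ⟨_, h⟩ | ⟨h, _⟩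
        · exact hcij h.symm
        · exact h0i h
      obtain ⟨t, ht1, ht2, ht3⟩ := exists_step (fun k => φ (c k)) j n (by omega) hne
      exact final t i ht2 (by omega) (Or.inr ⟨by omega, hoi⟩) hai φ hφ ht3
  have two' : ∀ i j : ℕ, i ≠ j → i < n → j < n → G₂.Adj (c 0) (c i) → G₂.Adj (c 0) (c j) →
      (Even i ∧ Even j ∨ Odd i ∧ Odd j) → (G₁ ⊔ G₂).coe.Colorable (2 * m) := by
    intro i j hij hi hj hai haj hpar
    rcases Nat.lt_or_gt_of_ne hij with h | h
    · exact two i j h hj hai haj hpar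
    · exact two j i h hi haj hai (by tauto)
  have hrep : ∀ y, y ∈ G₂.verts → ∃ i, i < n ∧ c i = y := by
    intro y hy
    obtain ⟨i, hi⟩ := hv y (hsub hy)
    exact ⟨i % n, Nat.mod_lt _ hn0, ((hc _ _).2 (Nat.mod_mod _ _)).trans hi⟩
  obtain ⟨a₁, ha1, e1⟩ := hrep y₁ (G₂.edge_vert hu1.symm)
  obtain ⟨a₂, ha2, e2⟩ := hrep y₂ (G₂.edge_vert hu2.symm)
  obtain ⟨a₃, ha3, e3⟩ := hrep y₃ (G₂.edge_vert hu3.symm)
  rw [← hc0, ← e1] at hu1
  rw [← hc0, ← e2] at hu2
  rw [← hc0, ← e3] at hu3
  have n12 : a₁ ≠ a₂ := by rintro rfl; exact h12 (e1.symm.trans e2)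
  have n13 : a₁ ≠ a₃ := by rintro rfl; exact h13 (e1.symm.trans e3)
  have n23 : a₂ ≠ a₃ := by rintro rfl; exact h23 (e2.symm.trans e3)
  rcases Nat.even_or_odd a₁ with p1 | p1 <;> rcases Nat.even_or_odd a₂ with p2 | p2 <;>
    rcases Nat.even_or_odd a₃ with p3 | p3
  · exact two' a₁ a₂ n12 ha1 ha2 hu1 hu2 (Or.inl ⟨p1, p2⟩)
  · exact two' a₁ a₂ n12 ha1 ha2 hu1 hu2 (Or.inl ⟨p1, p2⟩)
  · exact two' a₁ a₃ n13 ha1 ha3 hu1 hu3 (Or.inl ⟨p1, p3⟩)
  · exact two' a₂ a₃ n23 ha2 ha3 hu2 hu3 (Or.inr ⟨p2, p3⟩)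
  · exact two' a₂ a₃ n23 ha2 ha3 hu2 hu3 (Or.inl ⟨p2, p3⟩)
  · exact two' a₁ a₃ n13 ha1 ha3 hu1 hu3 (Or.inr ⟨p1, p3⟩)
  · exact two' a₁ a₂ n12 ha1 ha2 hu1 hu2 (Or.inr ⟨p1, p2⟩)
  · exact two' a₁ a₂ n12 ha1 ha2 hu1 hu2 (Or.inr ⟨p1, p2⟩)

theorem union_colorable {V : Type} [Finite V] {m : ℕ} (hm : 3 ≤ m)
    (G₁ G₂ : (⊤ : SimpleGraph V).Subgraph) (h1 : IsCritical 3 G₁) (h2 : IsCritical (m + 1) G₂) :
    (G₁ ⊔ G₂).coe.Colorable (2 * m) := by
  classical
  by_cases hsub : G₂.verts ⊆ G₁.verts
  · exact case_inside hm G₁ G₂ h1 h2 hsub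
  · rw [Set.not_subset] at hsub
    obtain ⟨w, hw2, hw1⟩ := hsub
    obtain ⟨y, hwy⟩ := exists_nbr (by omega) G₂ h2 w hw2
    obtain ⟨φ, hφ⟩ := exists_col (by omega) G₂ h2 w y hwy
    by_cases hz : ∃ z, z ∈ G₁.verts ∧ z ∉ G₂.verts
    · obtain ⟨z, hz1, hz2⟩ := hz
      obtain ⟨z', hzz'⟩ := exists_nbr (m := 2) (by norm_num) G₁ h1 z hz1
      obtain ⟨β, hβ⟩ : ∃ β : Fin m, β ≠ φ z' := by
        by_cases h0 : φ z' = ⟨0, by omega⟩
        · exact ⟨⟨1, by omega⟩, by rw [h0]; simp [Fin.ext_iff]⟩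
        · exact ⟨⟨0, by omega⟩, fun h => h0 h.symm⟩
      refine case_outside G₁ G₂ h1 w y hw1 hwy.ne (Function.update φ z β) ?_ z z' hzz' ?_
      · intro a b hab hne
        have ha : a ≠ z := by rintro rfl; exact hz2 (G₂.edge_vert hab)
        have hb : b ≠ z := by rintro rfl; exact hz2 (G₂.edge_vert hab.symm)
        rw [Function.update_of_ne ha, Function.update_of_ne hb]
        exact hφ a b hab hne
      · have : z' ≠ z := fun h => Subgraph.Adj.ne hzz' h.symm
        rw [Function.update_self, Function.update_of_ne this]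
        exact hβ
    · by_cases he : ∃ u v, G₁.Adj u v ∧ φ u ≠ φ v
      · obtain ⟨u, v, huv, hne⟩ := he
        exact case_outside G₁ G₂ h1 w y hw1 hwy.ne φ hφ u v huv hne
      · push Not at he
        obtain ⟨n, _, c, hadj, _, hv, _⟩ := exists_cycle G₁ h1
        have hconst : ∀ i, φ (c i) = φ (c 0) := by
          intro i
          induction i with
          | zero => rfl
          | succ i ih => rw [← he _ _ (hadj i)]; exact ih
        refine case_constant hm G₁ G₂ h1 w y hw1 φ hφ ?_
        intro a b ha hb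
        obtain ⟨i, rfl⟩ := hv a ha
        obtain ⟨j, rfl⟩ := hv b hb
        rw [hconst i, hconst j]

/-- **Main result.** For every `l ≥ 4`, the union of any 3-critical graph and any `l`-critical graph has
chromatic number at most `(3 - 1) * (l - 1)`. -/
theorem result : ∀ l : ℕ, 4 ≤ l → ∀ (V : Type) [Finite V] (G₁ G₂ : (⊤ : SimpleGraph V).Subgraph),
    IsCritical 3 G₁ → IsCritical l G₂ →
      (G₁ ⊔ G₂).coe.chromaticNumber ≤ (((3 - 1) * (l - 1) : ℕ) : ℕ∞) := by
  intro l hl V _ G₁ G₂ h1 h2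
  obtain ⟨m, rfl⟩ : ∃ m, l = m + 1 := ⟨l - 1, by omega⟩
  have h := (union_colorable (m := m) (by omega) G₁ G₂ h1 h2).chromaticNumber_le
  simpa using h

end Pool.Agent.Results.MP_b82347_co.OddCycle
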